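import Mathlib
import Pool.Agent.Helper27.TE.Frob
import Pool.Agent.Helper27.TE.Unr
import Pool.Agent.Helper56.H94.FM

/-!
# Characters of prime order and prime conductor of the absolute Galois group of the rational numbers
-/

set_option autoImplicit false

open NumberField Pool.Agent.Helper16.TR

open scoped Pointwise

namespace Pool.Agent.Helper42.SOQ

/-- discrete logarithm modulo `p` in a cyclic group of order divisible by `p` -/
lemma exists_log {C : Type} [Group C] [Finite C] {p : ℕ} {u : C} (hu : orderOf u = Nat.card C)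
    (hp : p ∣ Nat.card C) : ∃ lam : C →* Multiplicative (ZMod p),
      ∀ m : ℕ, lam (u ^ m) = Multiplicative.ofAdd ((m : ℕ) : ZMod p) := by
  have h1 : ∀ x : C, ∃ m : ℕ, u ^ m = x := by
    intro x
    have h2 : Subgroup.zpowers u = ⊤ := Subgroup.eq_top_of_card_eq _ (by
      rw [Nat.card_zpowers, hu])
    have h3 : x ∈ Subgroup.zpowers u := by rw [h2]; trivial
    obtain ⟨m, hm⟩ := (mem_powers_iff_mem_zpowers).2 h3
    exact ⟨m, hm⟩
  choose f hf using h1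
  have h2 : ∀ m m' : ℕ, u ^ m = u ^ m' → ((m : ℕ) : ZMod p) = ((m' : ℕ) : ZMod p) := by
    intro m m' h
    rw [pow_eq_pow_iff_modEq, hu] at h
    rw [ZMod.natCast_eq_natCast_iff]
    exact h.of_dvd hp
  refine ⟨⟨⟨fun x => Multiplicative.ofAdd ((f x : ℕ) : ZMod p), ?_⟩, ?_⟩, ?_⟩
  · have h3 := h2 (f 1) 0 (by rw [hf, pow_zero])
    rw [h3, Nat.cast_zero, ofAdd_zero]
  · intro x y
    change Multiplicative.ofAdd ((f (x * y) : ℕ) : ZMod p) =
      Multiplicative.ofAdd ((f x : ℕ) : ZMod p) * Multiplicative.ofAdd ((f y : ℕ) : ZMod p)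
    rw [h2 (f (x * y)) (f x + f y) (by rw [hf, pow_add, hf, hf]), Nat.cast_add, ofAdd_add]
  · intro m
    change Multiplicative.ofAdd ((f (u ^ m) : ℕ) : ZMod p) = _
    rw [h2 (f (u ^ m)) m (hf _)]

set_option linter.unusedSectionVars false

variable {Ω : Type} [Field Ω] [Algebra ℚ Ω] [IsGalois ℚ Ω]

/-- the character of order `p` and conductor `q` -/
theorem exists_chi (p q : ℕ) [Fact p.Prime] [Fact q.Prime] (hpq : p ∣ q - 1) {ζ : Ω}
    (hζ : IsPrimitiveRoot ζ q) {g : ℕ} (hg : orderOf (g : ZMod q) = q - 1) :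
    ∃ χ : (Ω ≃ₐ[ℚ] Ω) →* Multiplicative (ZMod p), IsOpen (χ.ker : Set (Ω ≃ₐ[ℚ] Ω)) ∧ χ ≠ 1 ∧
      ∀ (Q : Ideal (𝓞 Ω)), Q.IsMaximal → (q : 𝓞 Ω) ∉ Q → ∀ (σ : Ω ≃ₐ[ℚ] Ω) (N m : ℕ),
        (∀ x : 𝓞 Ω, σ • x - x ^ N ∈ Q) → (N : ZMod q) = (g : ZMod q) ^ m →
        χ σ = Multiplicative.ofAdd ((m : ℕ) : ZMod p) := by
  have hq : q.Prime := Fact.out
  have hq1 : 1 < q := hq.one_lt
  have hg0 : (g : ZMod q) ≠ 0 := by
    intro h
    rw [h] at hg
    have h1 : orderOf (0 : ZMod q) = 0 := by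
      rw [orderOf_eq_zero_iff']
      intro n hn
      rw [zero_pow hn.ne']
      exact zero_ne_one
    rw [h1] at hg
    omega
  set u : (ZMod q)ˣ := Units.mk0 (g : ZMod q) hg0 with hu
  have hucard : orderOf u = Nat.card (ZMod q)ˣ := by
    rw [← orderOf_units, hu, Units.val_mk0, hg, Nat.card_eq_fintype_card, ZMod.card_units]
  obtain ⟨lam, hlam⟩ := exists_log (p := p) hucard (by
    rw [Nat.card_eq_fintype_card, ZMod.card_units]; exact hpq)
  have hval : ∀ (σ : Ω ≃ₐ[ℚ] Ω) (N : ℕ), σ ζ = ζ ^ N → (hζ.autToPow ℚ σ : ZMod q) = N := by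
    intro σ N h
    have h1 := hζ.autToPow_spec ℚ σ
    rw [h] at h1
    have h4 : ζ ^ N = ζ ^ (N % q) := by
      conv_lhs => rw [← Nat.div_add_mod N q, pow_add, pow_mul, hζ.pow_eq_one, one_pow, one_mul]
    rw [h4] at h1
    have h2 : (hζ.autToPow ℚ σ : ZMod q).val = N % q :=
      hζ.pow_inj (ZMod.val_lt _) (Nat.mod_lt _ hq.pos) h1
    have h3 := congrArg (fun x : ℕ => (x : ZMod q)) h2
    simp only [ZMod.natCast_val, ZMod.cast_id', id_eq, ZMod.natCast_mod] at h3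
    exact h3
  have hfro : ∀ (σ : Ω ≃ₐ[ℚ] Ω) (N m : ℕ), σ ζ = ζ ^ N → (N : ZMod q) = (g : ZMod q) ^ m →
      lam (hζ.autToPow ℚ σ) = Multiplicative.ofAdd ((m : ℕ) : ZMod p) := by
    intro σ N m h hN
    have h1 : hζ.autToPow ℚ σ = u ^ m := by
      apply Units.ext
      rw [hval σ N h, hN, Units.val_pow_eq_pow_val, hu, Units.val_mk0]
    rw [h1, hlam]
  refine ⟨lam.comp (hζ.autToPow ℚ), ?_, ?_, ?_⟩
  · refine Subgroup.isOpen_mono (H₁ := MulAction.stabilizer (Ω ≃ₐ[ℚ] Ω) ζ) ?_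
      (stabilizer_isOpen_of_isIntegral (K := ℚ) ζ)
    intro σ hσ
    have h1 : σ ζ = ζ := hσ
    rw [MonoidHom.mem_ker, MonoidHom.comp_apply, hfro σ 1 0 (by rw [pow_one, h1]) (by simp)]
    simp
  · intro hcon
    have hconj : IsConjRoot ℚ ζ (ζ ^ g) := by
      have hcop : Nat.Coprime g q := by
        rw [Nat.coprime_comm, Nat.Prime.coprime_iff_not_dvd hq]
        intro hd
        exact hg0 ((CharP.cast_eq_zero_iff (ZMod q) q g).2 hd)
      have hζ' : IsPrimitiveRoot (ζ ^ g) q := hζ.pow_of_coprime g hcop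
      have hc : CharZero Ω := charZero_of_injective_algebraMap (algebraMap ℚ Ω).injective
      have e1 : minpoly ℚ ζ = minpoly ℚ (ζ ^ g) := by
        have h1 := Polynomial.cyclotomic_eq_minpoly_rat hζ hq.pos
        have h2 := Polynomial.cyclotomic_eq_minpoly_rat hζ' hq.pos
        have h3 := h1.symm.trans h2
        convert h3
        · exact Subsingleton.elim _ _
        · exact Subsingleton.elim _ _
      exact e1
    obtain ⟨σ, hσ⟩ := isConjRoot_iff_exists_algEquiv.1 hconj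
    have h1 := DFunLike.congr_fun hcon σ⁻¹
    rw [MonoidHom.comp_apply, map_inv, map_inv, MonoidHom.one_apply, inv_eq_one] at h1
    have h2 : σ ζ = ζ ^ g ∨ σ (ζ ^ g) = ζ := by
      first
        | exact Or.inl hσ.symm
        | exact Or.inr hσ.symm
        | exact Or.inl hσ
        | exact Or.inr hσ
    have hp1 : (Multiplicative.ofAdd (((1 : ℕ) : ℕ) : ZMod p)) ≠ 1 := by
      intro h
      have h5 : (((1 : ℕ) : ℕ) : ZMod p) = 0 := h
      rw [Nat.cast_one] at h5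
      exact one_ne_zero h5
    rcases h2 with h2 | h2
    · rw [hfro σ g 1 h2 (by rw [pow_one])] at h1
      exact hp1 h1
    · have h3 : σ⁻¹ ζ = ζ ^ g := by
        rw [← h2, ← AlgEquiv.mul_apply, inv_mul_cancel, AlgEquiv.one_apply, h2]
      have h4 := hfro σ⁻¹ g 1 h3 (by rw [pow_one])
      rw [map_inv, map_inv, h1, inv_one] at h4
      exact hp1 h4.symm
  · intro Q hQ hqQ σ N m hσ hN
    rw [MonoidHom.comp_apply]
    exact hfro σ N m (Helper27.TE.apply_root_of_frob q Q hQ hqQ σ N hσ ζ hζ.pow_eq_one) hN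

/-- two maximal ideals containing the same prime number lie above the same prime -/
lemma comap_eq_of_mem {q : ℕ} (hq : q.Prime) (Q Q' : Ideal (𝓞 Ω)) [hQ : Q.IsMaximal]
    [hQ' : Q'.IsMaximal] (h : (q : 𝓞 Ω) ∈ Q) (h' : (q : 𝓞 Ω) ∈ Q') :
    Q.comap (algebraMap (𝓞 ℚ) (𝓞 Ω)) = Q'.comap (algebraMap (𝓞 ℚ) (𝓞 Ω)) := by
  have key : ∀ P : Ideal (𝓞 ℚ), P.IsMaximal → (q : 𝓞 ℚ) ∈ P → P = Ideal.span {(q : 𝓞 ℚ)} := by
    intro P hP hqP
    have hmax : (Ideal.span {(q : 𝓞 ℚ)}).IsMaximal := by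
      have h1 : (Ideal.span {(q : ℤ)}).IsMaximal := by
        have h4 : (Ideal.span {(q : ℤ)}).IsPrime := by
          rw [Ideal.span_singleton_prime (by exact_mod_cast hq.ne_zero)]
          exact Nat.prime_iff_prime_int.1 hq
        refine h4.isMaximal ?_
        rw [Ne, Ideal.span_singleton_eq_bot]
        exact_mod_cast hq.ne_zero
      have h2 := Ideal.map_isMaximal_of_equiv (Rat.ringOfIntegersEquiv.symm : ℤ ≃+* 𝓞 ℚ) (p := Ideal.span {(q : ℤ)})
      rw [Ideal.map_span, Set.image_singleton] at h2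
      have h3 : (Rat.ringOfIntegersEquiv.symm : ℤ ≃+* 𝓞 ℚ) (q : ℤ) = (q : 𝓞 ℚ) := by
        rw [map_natCast]
      have h4 : ((Rat.ringOfIntegersEquiv.symm : ℤ ≃+* 𝓞 ℚ) : ℤ →+* 𝓞 ℚ) (q : ℤ) = (q : 𝓞 ℚ) := h3
      rw [← h3]
      exact h2
    exact (hmax.eq_of_le hP.ne_top (by
      rw [Ideal.span_singleton_le_iff_mem]; exact hqP)).symm
  have h1 : (Q.comap (algebraMap (𝓞 ℚ) (𝓞 Ω))).IsMaximal :=
    Ideal.isMaximal_comap_of_isIntegral_of_isMaximal Q
  have h2 : (Q'.comap (algebraMap (𝓞 ℚ) (𝓞 Ω))).IsMaximal :=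
    Ideal.isMaximal_comap_of_isIntegral_of_isMaximal Q'
  rw [key _ h1 (by rw [Ideal.mem_comap, map_natCast]; exact h),
    key _ h2 (by rw [Ideal.mem_comap, map_natCast]; exact h')]

/-- a homomorphism to a commutative group is trivial on the inertia groups at all primes above `q`
if it is trivial on one of them -/
lemma trivial_of_one {H : Type} [CommGroup H] (θ : (Ω ≃ₐ[ℚ] Ω) →* H) {q : ℕ} (hq : q.Prime)
    (Q Q' : Ideal (𝓞 Ω)) [hQ : Q.IsMaximal] [hQ' : Q'.IsMaximal] (h : (q : 𝓞 Ω) ∈ Q)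
    (h' : (q : 𝓞 Ω) ∈ Q') (ht : ∀ γ ∈ Q.inertia (Ω ≃ₐ[ℚ] Ω), θ γ = 1) :
    ∀ γ ∈ Q'.inertia (Ω ≃ₐ[ℚ] Ω), θ γ = 1 := by
  intro γ hγ
  obtain ⟨g, rfl⟩ := Helper68.RR.transitive Q Q' (comap_eq_of_mem hq Q Q' h h')
  have h2 := ht _ (Helper68.RR.mem_inertia_smul hγ)
  rw [map_mul, map_mul, map_inv, mul_comm (θ g)⁻¹, mul_assoc, inv_mul_cancel, mul_one] at h2
  exact h2

/-- the rational numbers have no unramified character of order `p` -/
lemma eq_one_of_unram (p : ℕ) [Fact p.Prime] (hp2 : p ≠ 2)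
    (θ : (Ω ≃ₐ[ℚ] Ω) →* Multiplicative (ZMod p)) (hopen : IsOpen (θ.ker : Set (Ω ≃ₐ[ℚ] Ω)))
    (hin : ∀ Q : Ideal (𝓞 Ω), Q.IsMaximal → ∀ g ∈ Q.inertia (Ω ≃ₐ[ℚ] Ω), θ g = 1) : θ = 1 := by
  by_contra hne
  refine Helper27.TE.not_classBound_zero p θ hopen hne hin ?_
  refine Helper56.H94.classBound_zero ℚ Fact.out hp2 ?_
  rw [Rat.classNumber_eq, Nat.dvd_one]
  exact (Fact.out : p.Prime).ne_one

end Pool.Agent.Helper42.SOQ
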