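import Pool.Agent.Helper27.TE.ExtLoc

/-!
# Local relations for second order representations
-/

set_option autoImplicit false

open NumberField Pool.Agent.Helper16.TR

open scoped Pointwise

namespace Pool.Agent.Helper42.SOQ

variable {K Ω : Type} [Field K] [NumberField K] [Field Ω] [Algebra K Ω] [IsGalois K Ω]

/-- structure of the inertia group at a prime not above `p` modulo the kernels of a tame
homomorphism `θ` and a homomorphism `χ` to a group of exponent `p` -/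
theorem local_structure {S : Set (Ideal (𝓞 K))} (p : ℕ) [Fact p.Prime] {H H' : Type} [Group H]
    [Group H'] {θ : (Ω ≃ₐ[K] Ω) →* H} (hT : TameIn K Ω S θ)
    (hopen : IsOpen (θ.ker : Set (Ω ≃ₐ[K] Ω))) (χ : (Ω ≃ₐ[K] Ω) →* H')
    (hχ : IsOpen (χ.ker : Set (Ω ≃ₐ[K] Ω))) (hH : ∀ h : H', h ^ p = 1) (Q : Ideal (𝓞 Ω))
    [hQ : Q.IsMaximal] (hp : (p : 𝓞 Ω) ∉ Q) :
    (∃ τ ∈ Q.inertia (Ω ≃ₐ[K] Ω), ∀ γ ∈ Q.inertia (Ω ≃ₐ[K] Ω), ∃ m : ℕ,
      θ γ = θ τ ^ m ∧ χ γ = χ τ ^ m) ∧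
    ∀ (g : Ω ≃ₐ[K] Ω) (N : ℕ), (∀ x : 𝓞 Ω, g • x - x ^ N ∈ Q) →
      ∀ γ ∈ Q.inertia (Ω ≃ₐ[K] Ω), θ (g * γ * g⁻¹) = θ γ ^ N := by
  set U : Subgroup (Ω ≃ₐ[K] Ω) := θ.ker ⊓ χ.ker with hU
  have hUo : IsOpen (U : Set (Ω ≃ₐ[K] Ω)) := hopen.inter hχ
  have hUn : U.Normal := inferInstance
  obtain ⟨E, nE, gE, hE, -⟩ := Helper68.RR.exists_field U hUo
  have hmem : ∀ γ : Ω ≃ₐ[K] Ω, γ ∈ U ↔ AlgEquiv.restrictNormalHom E γ = 1 := by
    intro γ
    rw [← hE, ← IntermediateField.restrictNormalHom_ker, MonoidHom.mem_ker]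
  have hmem2 : ∀ γ : Ω ≃ₐ[K] Ω, γ ∈ U ↔ θ γ = 1 ∧ χ γ = 1 := by
    intro γ
    rw [hU, Subgroup.mem_inf, MonoidHom.mem_ker, MonoidHom.mem_ker]
  have hPE : (Q.comap (algebraMap (𝓞 E) (𝓞 Ω))).IsMaximal :=
    Ideal.isMaximal_comap_of_isIntegral_of_isMaximal Q
  set PE := Q.comap (algebraMap (𝓞 E) (𝓞 Ω)) with hPEdef
  have hI : (Nat.card (PE.inertia (E ≃ₐ[K] E)) : 𝓞 E) ∉ PE := by
    intro hbad
    obtain ⟨l, hl, hdvd, hlP⟩ := Helper27.TE.el_exists_prime PE (Nat.card_pos.ne') hbad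
    have : Fact l.Prime := ⟨hl⟩
    obtain ⟨σ, hσ⟩ := exists_prime_orderOf_dvd_card' l hdvd
    obtain ⟨γ, hγ, hγσ⟩ := Helper68.RR.lift_inertia E Q σ.1 σ.2
    have hlQ : (l : 𝓞 Ω) ∈ Q := by
      have h1 : algebraMap (𝓞 E) (𝓞 Ω) (l : 𝓞 E) ∈ Q := hlP
      rwa [map_natCast] at h1
    have hpow : γ ^ l ∈ U := by
      rw [hmem, map_pow, hγσ]
      have h1 : σ ^ l = 1 := by rw [← hσ]; exact pow_orderOf_eq_one σ
      exact congrArg Subtype.val h1
    have hγθ : γ ∈ θ.ker := by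
      refine Helper68.RR.tame_mod hT Q θ.ker hopen le_rfl hγ (k := 1) hl hlQ ?_
      rw [pow_one]
      exact hpow.1
    have hlp : l ≠ p := by
      rintro rfl
      exact hp hlQ
    have hγχ : χ γ = 1 := by
      have h1 : χ γ ^ l = 1 := by
        rw [← map_pow]
        exact ((hmem2 _).1 hpow).2
      have h2 : χ γ ^ p = 1 := hH _
      have hcop : Nat.Coprime l p := (Nat.coprime_primes hl (Fact.out : p.Prime)).2 hlp
      have h3 := Nat.dvd_gcd (orderOf_dvd_of_pow_eq_one h1) (orderOf_dvd_of_pow_eq_one h2)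
      rw [hcop, Nat.dvd_one, orderOf_eq_one_iff] at h3
      exact h3
    have h4 : AlgEquiv.restrictNormalHom E γ = 1 := (hmem γ).1 ⟨hγθ, hγχ⟩
    have h5 : σ = 1 := Subtype.ext (hγσ.symm.trans h4)
    rw [h5, orderOf_one] at hσ
    exact hl.one_lt.ne hσ
  constructor
  · have hcyc : IsCyclic (PE.inertia (E ≃ₐ[K] E)) := by
      classical
      have : Fintype (PE.inertia (E ≃ₐ[K] E)) := Fintype.ofFinite _
      apply isCyclic_of_card_pow_eq_one_le
      intro m hm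
      have h1 := Helper68.RR.card_le_of_pow_eq_one hI hm
        ((Finset.univ.filter fun a : PE.inertia (E ≃ₐ[K] E) => a ^ m = 1).map
          (Function.Embedding.subtype _)) (by
          intro τ hτ
          rw [Finset.mem_map] at hτ
          obtain ⟨a, ha, rfl⟩ := hτ
          refine ⟨a.2, ?_⟩
          exact congrArg Subtype.val (Finset.mem_filter.1 ha).2)
      rwa [Finset.card_map] at h1
    obtain ⟨⟨τ₀, hτ₀⟩, hgen⟩ := hcyc.exists_generator
    obtain ⟨τ, hτ, hττ⟩ := Helper68.RR.lift_inertia E Q τ₀ hτ₀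
    refine ⟨τ, hτ, fun γ hγ => ?_⟩
    have h1 := Helper68.RR.res_mem_inertia E Q hγ
    obtain ⟨m, hm⟩ := (mem_powers_iff_mem_zpowers (x := (⟨τ₀, hτ₀⟩ : PE.inertia (E ≃ₐ[K] E)))
      (y := ⟨_, h1⟩)).2 (hgen _)
    refine ⟨m, ?_⟩
    have h2 : τ₀ ^ m = AlgEquiv.restrictNormalHom E γ := congrArg Subtype.val hm
    have h3 : γ * (τ ^ m)⁻¹ ∈ U := by
      rw [hmem, map_mul, map_inv, map_pow, hττ, h2, mul_inv_cancel]
    rw [hmem2, map_mul, map_mul, map_inv, map_inv, map_pow, map_pow, mul_inv_eq_one,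
      mul_inv_eq_one] at h3
    exact h3
  · intro g N hg γ hγ
    have hφ : ∀ x : 𝓞 E, AlgEquiv.restrictNormalHom E g • x - x ^ N ∈ PE := by
      intro x
      change algebraMap (𝓞 E) (𝓞 Ω) (AlgEquiv.restrictNormalHom E g • x - x ^ N) ∈ Q
      rw [map_sub, Helper68.RR.algebraMap_smul, map_pow]
      exact hg _
    have hconj := Helper68.RR.conj_eq_pow hI (Helper27.TE.el_smul_eq_of_pow hφ) hφ
      (Helper68.RR.res_mem_inertia E Q hγ)
    have hin : g * γ * g⁻¹ * (γ ^ N)⁻¹ ∈ U := by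
      rw [hmem, map_mul, map_mul, map_mul, map_inv, map_inv, map_pow, hconj, mul_inv_cancel]
    have h1 := ((hmem2 _).1 hin).1
    rw [map_mul, map_inv, mul_inv_eq_one, map_pow] at h1
    exact h1

section second

variable {Γ : Type} [Group Γ] {k : Type} [Field k] {n : ℕ} {φ ψ : Γ → Matrix (Fin n) (Fin n) k}

/-- `1 + ε φ + ε ^ 2 ψ` is a homomorphism modulo `ε ^ 3` -/
def Second (φ ψ : Γ → Matrix (Fin n) (Fin n) k) : Prop :=
  (∀ g h, φ (g * h) = φ g + φ h) ∧ ∀ g h, ψ (g * h) = ψ g + ψ h + φ g * φ h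

lemma Second.one (h : Second φ ψ) : φ 1 = 0 ∧ ψ 1 = 0 := by
  have h1 : φ 1 = 0 := by
    have := h.1 1 1
    rw [mul_one] at this
    exact left_eq_add.1 this
  refine ⟨h1, ?_⟩
  have := h.2 1 1
  rw [mul_one, h1, mul_zero, add_zero] at this
  exact left_eq_add.1 this

lemma Second.pow (h : Second φ ψ) (g : Γ) (m : ℕ) :
    φ (g ^ m) = (m : k) • φ g ∧ ψ (g ^ m) = (m : k) • ψ g + ((m.choose 2 : ℕ) : k) • (φ g * φ g) := by
  induction m with
  | zero =>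
    rw [pow_zero, h.one.1, h.one.2]
    simp
  | succ m ih =>
    rw [pow_succ, h.1, h.2, ih.1, ih.2]
    constructor
    · push_cast
      rw [add_smul, one_smul]
    · rw [Nat.choose_succ_succ' m 1, Nat.choose_one_right, Matrix.smul_mul]
      push_cast
      rw [add_smul, add_smul, one_smul]
      abel

/-- the relation at a prime in the tame case -/
theorem Second.rel (h : Second φ ψ) (p : ℕ) [Fact p.Prime] [CharP k p] (hp2 : p ≠ 2) {g γ : Γ}
    {N : ℕ} (hx : φ (g * γ * g⁻¹ * (γ ^ N)⁻¹) = 0 ∧ ψ (g * γ * g⁻¹ * (γ ^ N)⁻¹) = 0) :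
    (¬ p ∣ N - 1 → N ≠ 0 → φ γ = 0) ∧ (N ≠ 0 → φ g * φ γ = φ γ * φ g) := by
  set x := g * γ * g⁻¹ * (γ ^ N)⁻¹ with hxdef
  have hgx : g * γ = x * (γ ^ N * g) := by
    rw [hxdef]; group
  have h1 := h.1 g γ
  rw [hgx, h.1 x, h.1 (γ ^ N), (h.pow γ N).1, hx.1, zero_add, add_comm] at h1
  have h2 : ((N : k) - 1) • φ γ = 0 := by
    rw [sub_smul, one_smul, sub_eq_zero]
    exact add_left_cancel h1
  have h3 : ¬ p ∣ N - 1 → N ≠ 0 → φ γ = 0 := by
    intro hpN hN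
    refine (smul_eq_zero.1 h2).resolve_left fun h4 => hpN ?_
    rw [← CharP.cast_eq_zero_iff k p, Nat.cast_sub (Nat.one_le_iff_ne_zero.2 hN), Nat.cast_one]
    exact h4
  refine ⟨h3, fun hN => ?_⟩
  by_cases hpN : p ∣ N - 1
  · have h4 := h.2 g γ
    rw [hgx, h.2 x, h.2 (γ ^ N), (h.pow γ N).1, (h.pow γ N).2, hx.1, hx.2, zero_add, zero_mul,
      add_zero] at h4
    have h5 : (N : k) = 1 := by
      have := (CharP.cast_eq_zero_iff k p (N - 1)).2 hpN
      rw [Nat.cast_sub (Nat.one_le_iff_ne_zero.2 hN), Nat.cast_one, sub_eq_zero] at this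
      exact this
    have h6 : ((N.choose 2 : ℕ) : k) = 0 := by
      rw [CharP.cast_eq_zero_iff k p]
      have h7 : N.choose 2 * 2 = N * (N - 1) := by
        rw [Nat.choose_two_right]
        exact Nat.div_mul_cancel (Nat.even_mul_pred_self N).two_dvd
      have h8 : p ∣ N.choose 2 * 2 := by
        rw [h7]
        exact hpN.mul_left _
      refine (Nat.Prime.dvd_mul (Fact.out : p.Prime)).1 h8 |>.resolve_right fun h9 => ?_
      exact hp2 ((Nat.prime_dvd_prime_iff_eq Fact.out Nat.prime_two).1 h9)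
    rw [h5, h6, one_smul, one_smul, zero_smul, add_zero] at h4
    have h9 : φ γ * φ g = φ g * φ γ := by
      have : ψ γ + ψ g + φ γ * φ g = ψ γ + ψ g + φ g * φ γ := by
        rw [h4]; abel
      exact add_left_cancel this
    exact h9.symm
  · rw [h3 hpN hN, mul_zero, zero_mul]

end second

end Pool.Agent.Helper42.SOQ
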